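import Pool.Agent.MP_4a6971_al.H66.Defs

/-!
The reflection group of the right-angled `(2g+2)`-gon and its subgroup of index four.
-/

namespace Pool.Agent.MP_4a6971_al.H66

/-- The sides of the polygon. -/
abbrev I (g : ℕ) : Type := ZMod (2 * g + 2)

/-- The Coxeter matrix of the right-angled polygon. -/
def polyM (g : ℕ) : CoxeterMatrix (I g) where
  M := Matrix.of fun i j => if i = j then 1 else if j = i + 1 ∨ i = j + 1 then 2 else 0
  isSymm := by
    ext i j
    simp only [Matrix.transpose_apply, Matrix.of_apply, eq_comm (a := j) (b := i), or_comm]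
  diagonal := fun i => by simp
  off_diagonal := fun i j h => by
    simp only [Matrix.of_apply, if_neg h]
    split_ifs <;> simp

/-- The reflection group. -/
abbrev W (g : ℕ) : Type := (polyM g).Group

/-- The Coxeter system. -/
def cs (g : ℕ) : CoxeterSystem (polyM g) (W g) := (polyM g).toCoxeterSystem

variable {g : ℕ}

/-- The simple reflections. -/
def s (i : I g) : W g := (cs g).simple i

@[simp] theorem s_mul_s (i : I g) : s i * s i = 1 := (cs g).simple_mul_simple_self i

@[simp] theorem s_inv (i : I g) : (s i)⁻¹ = s i := (cs g).inv_simple i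

@[simp] theorem s_s (i : I g) (w : W g) : s i * (s i * w) = w := by rw [← mul_assoc, s_mul_s, one_mul]

theorem succ_ne (i : I g) : i + 1 ≠ i := by
  intro h
  have h1 : (1 : I g) = 0 := by simpa using h
  have : Fact (1 < 2 * g + 2) := ⟨by omega⟩
  exact one_ne_zero h1

theorem s_comm (i : I g) : s i * s (i + 1) = s (i + 1) * s i := by
  have h := (cs g).simple_mul_simple_pow i (i + 1)
  have e : polyM g i (i + 1) = 2 := by simp [polyM, (succ_ne i).symm]
  rw [e, pow_two] at h
  have h' : s i * s (i + 1) * (s i * s (i + 1)) = 1 := h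
  have := eq_inv_of_mul_eq_one_left h'
  rwa [mul_inv_rev, s_inv, s_inv] at this

theorem liftable {H : Type*} [Monoid H] (f : I g → H) (h1 : ∀ i, f i * f i = 1)
    (h2 : ∀ i, f i * f (i + 1) = f (i + 1) * f i) : (polyM g).IsLiftable f := by
  intro i j
  simp only [polyM, Matrix.of_apply]
  split_ifs with a b
  · subst a
    rw [pow_one, h1]
  · have : f i * f j = f j * f i := by
      rcases b with rfl | rfl
      · exact h2 i
      · exact (h2 j).symm
    rw [pow_two]
    nth_rewrite 2 [this]
    rw [mul_assoc, ← mul_assoc (f j), h1, one_mul, h1]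
  · rw [pow_zero]

/-- Homomorphisms out of the reflection group. -/
def liftW {H : Type*} [Monoid H] (f : I g → H) (h1 : ∀ i, f i * f i = 1)
    (h2 : ∀ i, f i * f (i + 1) = f (i + 1) * f i) : W g →* H :=
  (cs g).lift ⟨f, liftable f h1 h2⟩

@[simp] theorem liftW_s {H : Type*} [Monoid H] (f : I g → H) (h1 : ∀ i, f i * f i = 1)
    (h2 : ∀ i, f i * f (i + 1) = f (i + 1) * f i) (i : I g) : liftW f h1 h2 (s i) = f i :=
  (cs g).lift_apply_simple _ i

theorem W_ind_left {p : W g → Prop} (w : W g) (one : p 1) (step : ∀ i w, p w → p (s i * w)) : p w :=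
  (cs g).simple_induction_left w one fun w i h => step i w h

theorem W_ind_right {p : W g → Prop} (w : W g) (one : p 1) (step : ∀ i w, p w → p (w * s i)) :
    p w :=
  (cs g).simple_induction_right w one fun w i h => step i w h

/-- The parity of a side. -/
def par : I g →+* ZMod 2 := ZMod.castHom (by omega : 2 ∣ 2 * g + 2) (ZMod 2)

/-- The two-colouring homomorphism. -/
def cls (g : ℕ) : W g →* Multiplicative (ZMod 2 × ZMod 2) :=
  liftW (fun i => Multiplicative.ofAdd (1 + par i, par i))
    (fun i => by
      rw [← ofAdd_add, Prod.mk_add_mk, CharTwo.add_self_eq_zero, CharTwo.add_self_eq_zero]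
      rfl)
    fun i => mul_comm _ _

theorem cls_s (i : I g) : cls g (s i) = Multiplicative.ofAdd (1 + par i, par i) := liftW_s _ _ _ i

/-- The surface subgroup. -/
abbrev Gam (g : ℕ) : Type := (cls g).ker

/-- The outer automorphism group. -/
abbrev Out (Γ : Type) [Group Γ] : Type := MulAut Γ ⧸ (MulAut.conj : Γ →* MulAut Γ).range

end Pool.Agent.MP_4a6971_al.H66
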