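import Mathlib

namespace Pool.Agent.MP_4a6971_al.H66

/-- The relator `[a₁, b₁] ⋯ [a_g, b_g]`; the generator `aₖ` is `Sum.inl k`, and `bₖ` is `Sum.inr k`. -/
def surfaceRel (g : ℕ) : FreeGroup (Fin g ⊕ Fin g) :=
  (List.ofFn fun k : Fin g => FreeGroup.of (Sum.inl k) * FreeGroup.of (Sum.inr k) *
    (FreeGroup.of (Sum.inl k))⁻¹ * (FreeGroup.of (Sum.inr k))⁻¹).prod

/-- The fundamental group of the closed orientable surface of genus `g`. -/
abbrev SurfaceGroup (g : ℕ) : Type := PresentedGroup ({surfaceRel g} : Set (FreeGroup (Fin g ⊕ Fin g)))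

/-- The class in `H₁ = ℤ^{2g}`: the homomorphism sending the generators to the standard basis. -/
def homologyHom (g : ℕ) : SurfaceGroup g →* Multiplicative (Fin g ⊕ Fin g → ℤ) :=
  PresentedGroup.toGroup (f := fun i => Multiplicative.ofAdd (Pi.single i 1)) (by
    rintro r rfl
    rw [surfaceRel, map_list_prod]
    refine List.prod_eq_one fun x hx => ?_
    obtain ⟨y, hy, rfl⟩ := List.mem_map.1 hx
    obtain ⟨k, rfl⟩ := (List.mem_ofFn' _ _).1 hy
    simp [mul_inv_cancel_comm])

/-- The algebraic intersection number of the homology classes of two elements. -/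
def interForm {g : ℕ} (x y : SurfaceGroup g) : ℤ :=
  ∑ k : Fin g, ((homologyHom g x).toAdd (Sum.inl k) * (homologyHom g y).toAdd (Sum.inr k) -
    (homologyHom g x).toAdd (Sum.inr k) * (homologyHom g y).toAdd (Sum.inl k))

/-- The orientation preserving automorphisms: those preserving the intersection form on `H₁`. -/
def AutPlus (g : ℕ) : Subgroup (MulAut (SurfaceGroup g)) where
  carrier := {φ | ∀ x y, interForm (φ x) (φ y) = interForm x y}
  mul_mem' := fun {φ ψ} h h' x y => (h (ψ x) (ψ y)).trans (h' x y)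
  one_mem' := fun _ _ => rfl
  inv_mem' := fun {φ} h x y => by simpa using (h (φ⁻¹ x) (φ⁻¹ y)).symm

/-- The inner automorphisms form a normal subgroup of the automorphism group. -/
instance innerNormal (Γ : Type) [Group Γ] : (MulAut.conj : Γ →* MulAut Γ).range.Normal :=
  ⟨by
    rintro _ ⟨x, rfl⟩ φ
    exact ⟨φ x, by ext y; simp⟩⟩

/-- The mapping class group in its Dehn–Nielsen–Baer form `Out⁺(π₁ Σ_g)`. -/
abbrev ModGroup (g : ℕ) : Type :=
  AutPlus g ⧸ (MulAut.conj : SurfaceGroup g →* MulAut (SurfaceGroup g)).range.subgroupOf (AutPlus g)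

/-- The Torelli group: the classes acting trivially on `H₁`. -/
def Torelli (g : ℕ) : Set (ModGroup g) :=
  {m | ∃ φ : AutPlus g, QuotientGroup.mk φ = m ∧
    ∀ x, homologyHom g ((φ : MulAut (SurfaceGroup g)) x) = homologyHom g x}

end Pool.Agent.MP_4a6971_al.H66
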