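import Pool.Agent.MP_4a6971_al.H66.Cox

/-!
Reidemeister-Schreier rewriting for the subgroup of index four of the polygon reflection group.
-/

namespace Pool.Agent.MP_4a6971_al.H66.Iso

variable {g : ℕ} {H : Type} [Group H]

/-- The Klein four group of colours. -/
abbrev K : Type := ZMod 2 × ZMod 2

theorem z2 (a : ZMod 2) : a = 0 ∨ a = 1 := by revert a; decide

theorem oo : (1 : ZMod 2) + 1 = 0 := by decide

/-- The colour of a side of parity `p`. -/
def col (p : ZMod 2) : K := (1 + p, p)

theorem col_col (κ : K) (p : ZMod 2) : κ + col p + col p = κ := by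
  revert κ p; decide

/-- The Schreier generator attached to a coset and a side. -/
def Rr (κ : K) (p : ZMod 2) (x y : H) : H :=
  if κ.1 = 0 then (if κ.2 = 0 then (if p = 0 then x⁻¹ else y⁻¹) else y)
  else (if κ.2 = 0 then x else (if p = 0 then y⁻¹ else x⁻¹))

theorem Rr_inv (κ : K) (p : ZMod 2) (x y : H) : Rr κ p x y * Rr (κ + col p) p x y = 1 := by
  obtain ⟨a, b⟩ := κ
  rcases z2 a with rfl | rfl <;> rcases z2 b with rfl | rfl <;> rcases z2 p with rfl | rfl <;>
    simp [Rr, col, oo]

theorem Rr_comm (κ : K) (p : ZMod 2) (x y x' y' : H) (h : x⁻¹ * x' = y'⁻¹ * y) :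
    Rr (κ + col (p + 1) + col p) p x y * Rr (κ + col (p + 1)) (p + 1) x' y' =
      Rr (κ + col p + col (p + 1)) (p + 1) x' y' * Rr (κ + col p) p x y := by
  have e : y = y' * (x⁻¹ * x') := by rw [h]; group
  subst e
  obtain ⟨a, b⟩ := κ
  rcases z2 a with rfl | rfl <;> rcases z2 b with rfl | rfl <;> rcases z2 p with rfl | rfl <;>
    simp [Rr, col, oo, mul_assoc]

theorem Rr_map {H' : Type} [Group H'] (f : H →* H') (κ : K) (p : ZMod 2) (x y : H) :
    f (Rr κ p x y) = Rr κ p (f x) (f y) := by
  unfold Rr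
  split_ifs <;> simp

theorem Rr_one (κ : K) (p : ZMod 2) : Rr κ p (1 : H) 1 = 1 := by
  unfold Rr
  split_ifs <;> simp

/-- The action of a simple reflection on pairs of a coset and a group element. -/
def act (P Q : I g → H) (i : I g) : Function.End (K × H) :=
  fun z => (z.1 + col (par i), Rr (z.1 + col (par i)) (par i) (P i) (Q i) * z.2)

/-- The relations between the Schreier generators. -/
def Rel (P Q : I g → H) : Prop := ∀ i, (P i)⁻¹ * P (i + 1) = (Q (i + 1))⁻¹ * Q i

theorem end_mul {α : Type} (f f' : Function.End α) (z : α) : (f * f') z = f (f' z) := rfl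

theorem end_one {α : Type} (z : α) : (1 : Function.End α) z = z := rfl

/-- The action of the reflection group. -/
def rho {P Q : I g → H} (h : Rel P Q) : W g →* Function.End (K × H) :=
  liftW (act P Q)
    (fun i => by
      funext z
      rw [end_mul, end_one]
      simp only [act, col_col]
      rw [← mul_assoc, Rr_inv, one_mul])
    (fun i => by
      funext z
      rw [end_mul, end_mul]
      simp only [act, map_add, map_one]
      rw [← mul_assoc, ← mul_assoc, Rr_comm _ _ _ _ _ _ (h i), add_right_comm z.1])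

theorem rho_s {P Q : I g → H} (h : Rel P Q) (i : I g) (w : W g) (z : K × H) :
    rho h (s i * w) z = act P Q i (rho h w z) := by
  rw [map_mul, end_mul, rho, liftW_s]

theorem rho_one {P Q : I g → H} (h : Rel P Q) (z : K × H) : rho h 1 z = z := by
  rw [map_one, end_one]

theorem cls_s_mul (i : I g) (w : W g) :
    (cls g (s i * w)).toAdd = (cls g w).toAdd + col (par i) := by
  rw [map_mul, cls_s, toAdd_mul, toAdd_ofAdd, add_comm]
  rfl

/-- The rewriting map. -/
def psi {P Q : I g → H} (h : Rel P Q) (w : W g) : H := (rho h w (0, 1)).2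

theorem rho_eq {P Q : I g → H} (h : Rel P Q) (w : W g) (γ : H) :
    rho h w (0, γ) = ((cls g w).toAdd, psi h w * γ) := by
  induction w using W_ind_left with
  | one => simp [psi, rho_one]
  | step i w ih =>
    have e : (rho h w (0, 1)).1 = (cls g w).toAdd := by
      clear ih
      induction w using W_ind_left with
      | one => simp [rho_one]
      | step j w ih => rw [rho_s, cls_s_mul, ← ih]; rfl
    rw [psi, rho_s, rho_s, ih, cls_s_mul]
    simp only [act, e, psi, mul_assoc]

theorem psi_one {P Q : I g → H} (h : Rel P Q) : psi h 1 = 1 := by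
  simp [psi, rho_one]

theorem psi_s {P Q : I g → H} (h : Rel P Q) (i : I g) (w : W g) :
    psi h (s i * w) =
      Rr ((cls g w).toAdd + col (par i)) (par i) (P i) (Q i) * psi h w := by
  rw [psi, rho_s, rho_eq]
  simp only [act, mul_one]

/-- The rewriting homomorphism on the subgroup. -/
def psiHom {P Q : I g → H} (h : Rel P Q) : Gam g →* H where
  toFun := fun w => psi h w
  map_one' := psi_one h
  map_mul' := fun u v => by
    have hv : cls g v = 1 := v.2
    change (rho h (u * v : W g) (0, 1)).2 = _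
    rw [map_mul, end_mul, rho_eq h v, hv, toAdd_one, rho_eq, mul_one]

/-- Coset representatives. -/
def tau (κ : K) : W g := (if κ.1 = 0 then 1 else s 0) * (if κ.2 = 0 then 1 else s 1)

theorem s01 : s (1 : I g) * s 0 = s 0 * s 1 := by
  have := s_comm (0 : I g)
  rw [zero_add] at this
  exact this.symm

theorem s01' (w : W g) : s (1 : I g) * (s 0 * w) = s 0 * (s 1 * w) := by
  rw [← mul_assoc, s01, mul_assoc]

theorem cls_tau (κ : K) : cls g (tau κ) = Multiplicative.ofAdd κ := by
  obtain ⟨a, b⟩ := κ
  rcases z2 a with rfl | rfl <;> rcases z2 b with rfl | rfl <;>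
    simp [tau, cls_s, oo, ← ofAdd_add, Prod.mk_zero_zero]

theorem tau_zero : (tau 0 : W g) = 1 := by simp [tau]

/-- The Schreier generators in the reflection group. -/
def RW (κ : K) (i : I g) : Gam g :=
  ⟨tau κ * (s i * tau (κ + col (par i))), by
    rw [MonoidHom.mem_ker, map_mul, map_mul, cls_tau, cls_tau, cls_s, ← ofAdd_add, ← ofAdd_add]
    change Multiplicative.ofAdd (κ + (col (par i) + (κ + col (par i)))) = Multiplicative.ofAdd 0
    generalize par i = p
    congr 1
    revert κ p
    decide⟩

/-- The first family of generators. -/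
def PW (i : I g) : Gam g := RW (1, 0) i

/-- The second family of generators. -/
def QW (i : I g) : Gam g := RW (0, 1) i

theorem RW_eq (κ : K) (i : I g) : RW κ i = Rr κ (par i) (PW i) (QW i) := by
  obtain ⟨a, b⟩ := κ
  rcases z2 a with rfl | rfl <;> rcases z2 b with rfl | rfl <;> rcases z2 (par i) with h | h <;>
    apply Subtype.ext <;> simp [Rr, PW, QW, RW, tau, col, h, oo, mul_assoc, s01]

theorem rel_W : Rel (PW : I g → Gam g) QW := by
  intro i
  have e : ∀ w : W g, s (i + 1) * (s i * w) = s i * (s (i + 1) * w) := fun w => by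
    rw [← mul_assoc, ← s_comm, mul_assoc]
  apply Subtype.ext
  rcases z2 (par i) with h | h <;>
    simp [PW, QW, RW, tau, col, h, oo, mul_assoc, s01, e, s_comm i]

theorem PW_zero : (PW 0 : Gam g) = 1 := by
  apply Subtype.ext
  simp [PW, RW, tau, col, oo]

theorem QW_zero : (QW 0 : Gam g) = 1 := by
  apply Subtype.ext
  simp [QW, RW, tau, col]

theorem PW_one : (PW 1 : Gam g) = 1 := by
  apply Subtype.ext
  simp [PW, RW, tau, col, oo, s01']

theorem QW_one : (QW 1 : Gam g) = 1 := by
  apply Subtype.ext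
  simp [QW, RW, tau, col, oo]

theorem tau_tau (κ : K) : (tau κ : W g) * tau κ = 1 := by
  obtain ⟨a, b⟩ := κ
  rcases z2 a with rfl | rfl <;> rcases z2 b with rfl | rfl <;>
    simp [tau, mul_assoc, s01']

/-- Every element is its coset representative times the image of its rewriting. -/
theorem eq_tau_mul {P Q : I g → H} (h : Rel P Q) (f : H →* Gam g) (hP : ∀ i, f (P i) = PW i)
    (hQ : ∀ i, f (Q i) = QW i) (w : W g) :
    w = tau (cls g w).toAdd * (f (psi h w) : W g) := by
  induction w using W_ind_left with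
  | one => simp [psi_one, tau_zero]
  | step i w ih =>
    rw [psi_s, map_mul f, Rr_map, hP, hQ, ← RW_eq, cls_s_mul]
    simp only [RW, col_col, Subgroup.coe_mul]
    rw [← mul_assoc, ← mul_assoc, tau_tau, one_mul, mul_assoc, ← ih]

theorem comp_psiHom {P Q : I g → H} (h : Rel P Q) (f : H →* Gam g) (hP : ∀ i, f (P i) = PW i)
    (hQ : ∀ i, f (Q i) = QW i) (w : Gam g) : f (psiHom h w) = w := by
  apply Subtype.ext
  have hw : cls g w = 1 := w.2
  have := eq_tau_mul h f hP hQ w
  rw [hw, toAdd_one, tau_zero, one_mul] at this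
  exact this.symm

theorem psi_tau_mul {P Q : I g → H} (h : Rel P Q) (h0 : P 0 = 1) (h0' : Q 0 = 1) (h1 : P 1 = 1)
    (h1' : Q 1 = 1) (κ : K) (w : W g) : psi h (tau κ * w) = psi h w := by
  obtain ⟨a, b⟩ := κ
  rcases z2 a with rfl | rfl <;> rcases z2 b with rfl | rfl <;>
    simp [tau, mul_assoc, psi_s, h0, h0', h1, h1', Rr_one]

theorem psiHom_PW {P Q : I g → H} (h : Rel P Q) (h0 : P 0 = 1) (h0' : Q 0 = 1) (h1 : P 1 = 1)
    (h1' : Q 1 = 1) (i : I g) : psiHom h (PW i) = P i := by
  change psi h (tau (1, 0) * (s i * tau ((1, 0) + col (par i)))) = P i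
  rw [psi_tau_mul h h0 h0' h1 h1', psi_s, cls_tau, toAdd_ofAdd, col_col,
    ← mul_one (tau _), psi_tau_mul h h0 h0' h1 h1', psi_one, mul_one]
  simp [Rr]

end Pool.Agent.MP_4a6971_al.H66.Iso
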