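import Mathlib

/-!
Binary quadratic forms as a Lorentzian space; the hyperbolic plane and its isometries.
-/

namespace Pool.Agent.MP_4a6971_al.H66

/-- Binary quadratic forms `a r² + 2 b r + c`. -/
abbrev V : Type := ℝ × ℝ × ℝ

/-- The polarised discriminant. -/
noncomputable def Bf (P Q : V) : ℝ := P.2.1 * Q.2.1 - (P.1 * Q.2.2 + Q.1 * P.2.2) / 2

theorem Bf_comm (P Q : V) : Bf P Q = Bf Q P := by unfold Bf; ring

@[simp] theorem Bf_add_left (P Q R : V) : Bf (P + Q) R = Bf P R + Bf Q R := by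
  simp only [Bf, Prod.fst_add, Prod.snd_add]; ring

@[simp] theorem Bf_add_right (P Q R : V) : Bf R (P + Q) = Bf R P + Bf R Q := by
  simp only [Bf, Prod.fst_add, Prod.snd_add]; ring

@[simp] theorem Bf_sub_left (P Q R : V) : Bf (P - Q) R = Bf P R - Bf Q R := by
  simp only [Bf, Prod.fst_sub, Prod.snd_sub]; ring

@[simp] theorem Bf_sub_right (P Q R : V) : Bf R (P - Q) = Bf R P - Bf R Q := by
  simp only [Bf, Prod.fst_sub, Prod.snd_sub]; ring

@[simp] theorem Bf_neg_left (P R : V) : Bf (-P) R = -Bf P R := by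
  simp only [Bf, Prod.fst_neg, Prod.snd_neg]; ring

@[simp] theorem Bf_neg_right (P R : V) : Bf R (-P) = -Bf R P := by
  simp only [Bf, Prod.fst_neg, Prod.snd_neg]; ring

@[simp] theorem Bf_smul_left (t : ℝ) (P R : V) : Bf (t • P) R = t * Bf P R := by
  simp only [Bf, Prod.smul_fst, Prod.smul_snd, smul_eq_mul]; ring

@[simp] theorem Bf_smul_right (t : ℝ) (P R : V) : Bf R (t • P) = t * Bf R P := by
  simp only [Bf, Prod.smul_fst, Prod.smul_snd, smul_eq_mul]; ring

theorem continuous_Bf : Continuous fun p : V × V => Bf p.1 p.2 := by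
  unfold Bf
  fun_prop

/-- The upper sheet of the hyperboloid. -/
def H2 (P : V) : Prop := Bf P P = -1 ∧ 0 < P.1

theorem H2.eq {P : V} (h : H2 P) : P.1 * P.2.2 = 1 + P.2.1 ^ 2 := by
  have := h.1
  unfold Bf at this
  linarith

theorem H2.pos {P : V} (h : H2 P) : 0 < P.2.2 := by
  have := h.eq
  have h1 := h.2
  by_contra! hc
  nlinarith [sq_nonneg P.2.1]

theorem H2.of_eq {a b c : ℝ} (h : a * c = 1 + b ^ 2) (ha : 0 < a) : H2 (a, b, c) :=
  ⟨by unfold Bf; simp only; linarith, ha⟩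

/-- The base point. -/
def o : V := (1, 0, 1)

theorem H2_o : H2 o := H2.of_eq (by norm_num) one_pos

theorem H2_or {P : V} (h : Bf P P = -1) : H2 P ∨ H2 (-P) := by
  rcases lt_trichotomy 0 P.1 with h1 | h1 | h1
  · exact Or.inl ⟨h, h1⟩
  · exfalso
    unfold Bf at h
    rw [← h1] at h
    nlinarith [sq_nonneg P.2.1]
  · exact Or.inr ⟨by simpa using h, by simpa using h1⟩

/-- The isometry group of the hyperbolic plane. -/
def Isom : Subgroup (V ≃ₗ[ℝ] V) where
  carrier := {f | (∀ P Q, Bf (f P) (f Q) = Bf P Q) ∧ ∀ P, H2 P → H2 (f P)}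
  mul_mem' := fun {f g} hf hg =>
    ⟨fun P Q => (hf.1 (g P) (g Q)).trans (hg.1 P Q), fun P h => hf.2 _ (hg.2 P h)⟩
  one_mem' := ⟨fun _ _ => rfl, fun _ h => h⟩
  inv_mem' := fun {f} hf => by
    have e : ∀ P, f (f⁻¹ P) = P := fun P => f.apply_symm_apply P
    have h1 : ∀ P Q, Bf (f⁻¹ P) (f⁻¹ Q) = Bf P Q := fun P Q => by rw [← hf.1, e, e]
    refine ⟨h1, fun P h => (H2_or ((h1 P P).trans h.1)).resolve_right fun h2 => ?_⟩
    have h3 := (hf.2 _ h2).2
    rw [map_neg, e] at h3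
    exact lt_asymm h.2 (by simpa using h3)

@[simp] theorem Bf_isom (f : Isom) (P Q : V) : Bf (f • P) (f • Q) = Bf P Q := f.2.1 P Q

theorem Bf_move (f : Isom) (P Q : V) : Bf (f • P) Q = Bf P (f⁻¹ • Q) := by
  rw [← Bf_isom f P, smul_inv_smul]

theorem H2.smul {P : V} (h : H2 P) (f : Isom) : H2 (f • P) := f.2.2 P h

theorem isom_smul (f : Isom) (t : ℝ) (P : V) : f • t • P = t • f • P := f.1.map_smul t P

theorem continuous_isom (f : Isom) : Continuous fun P : V => f • P :=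
  f.1.toLinearMap.continuous_of_finiteDimensional

theorem isom_ext {f f' : Isom} (h : ∀ P : V, f • P = f' • P) : f = f' :=
  Subtype.ext (LinearEquiv.ext h)

/-- Substitution of a two by two matrix into a form. -/
def act (α β γ δ : ℝ) : V →ₗ[ℝ] V where
  toFun Q := (Q.1 * α ^ 2 + 2 * Q.2.1 * α * γ + Q.2.2 * γ ^ 2,
    Q.1 * α * β + Q.2.1 * (α * δ + β * γ) + Q.2.2 * γ * δ,
    Q.1 * β ^ 2 + 2 * Q.2.1 * β * δ + Q.2.2 * δ ^ 2)
  map_add' P Q := by ext <;> simp <;> ring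
  map_smul' t P := by ext <;> simp <;> ring

theorem act_apply (α β γ δ : ℝ) (Q : V) : act α β γ δ Q =
    (Q.1 * α ^ 2 + 2 * Q.2.1 * α * γ + Q.2.2 * γ ^ 2,
    Q.1 * α * β + Q.2.1 * (α * δ + β * γ) + Q.2.2 * γ * δ,
    Q.1 * β ^ 2 + 2 * Q.2.1 * β * δ + Q.2.2 * δ ^ 2) := rfl

theorem Bf_act (α β γ δ : ℝ) (P Q : V) :
    Bf (act α β γ δ P) (act α β γ δ Q) = (α * δ - β * γ) ^ 2 * Bf P Q := by
  simp only [act_apply, Bf]
  ring

theorem act_act (α β γ δ α' β' γ' δ' : ℝ) (Q : V) : act α' β' γ' δ' (act α β γ δ Q) =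
    act (α * α' + β * γ') (α * β' + β * δ') (γ * α' + δ * γ') (γ * β' + δ * δ') Q := by
  simp only [act_apply]
  ext <;> simp only <;> ring

theorem exists_isom {α β γ δ : ℝ} (h : (α * δ - β * γ) ^ 2 = 1) :
    ∃ f : Isom, ∀ Q, f • Q = act α β γ δ Q := by
  have h1 : ∀ Q, act δ (-β) (-γ) α (act α β γ δ Q) = Q := fun Q => by
    simp only [act_apply]
    ext <;> simp only
    · linear_combination Q.1 * h
    · linear_combination Q.2.1 * h
    · linear_combination Q.2.2 * h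
  have h2 : ∀ Q, act α β γ δ (act δ (-β) (-γ) α Q) = Q := fun Q => by
    simp only [act_apply]
    ext <;> simp only
    · linear_combination Q.1 * h
    · linear_combination Q.2.1 * h
    · linear_combination Q.2.2 * h
  refine ⟨⟨LinearEquiv.ofLinearMap (act α β γ δ) (act δ (-β) (-γ) α) (LinearMap.ext h2)
    (LinearMap.ext h1), fun P Q => ?_, fun P hP => ⟨?_, ?_⟩⟩, fun _ => rfl⟩
  · change Bf (act α β γ δ P) (act α β γ δ Q) = _
    rw [Bf_act, h, one_mul]
  · change Bf (act α β γ δ P) (act α β γ δ P) = _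
    rw [Bf_act, h, one_mul, hP.1]
  · change 0 < P.1 * α ^ 2 + 2 * P.2.1 * α * γ + P.2.2 * γ ^ 2
    have e := hP.eq
    have a := hP.2
    have key : P.1 * (P.1 * α ^ 2 + 2 * P.2.1 * α * γ + P.2.2 * γ ^ 2) =
        (P.1 * α + P.2.1 * γ) ^ 2 + γ ^ 2 := by linear_combination γ ^ 2 * e
    refine (mul_pos_iff_of_pos_left a).1 ?_
    rw [key]
    by_cases hγ : γ = 0
    · subst hγ
      have : α ≠ 0 := by
        rintro rfl
        simp at h
      have := mul_ne_zero a.ne' this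
      simp only [mul_zero, add_zero]
      positivity
    · positivity

theorem H2.exists_frame {Q : V} (h : H2 Q) : ∃ f : Isom, f • Q = o := by
  have a := h.2
  have hs := Real.sqrt_pos.2 a
  have h2 := Real.mul_self_sqrt a.le
  obtain ⟨f, hf⟩ := exists_isom (α := 1 / √Q.1) (β := -Q.2.1 / √Q.1) (γ := 0) (δ := √Q.1)
    (by field_simp; ring)
  refine ⟨f, ?_⟩
  rw [hf, act_apply, o]
  have e := h.eq
  generalize √Q.1 = r at *
  obtain ⟨a', b, c⟩ := Q
  simp only at *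
  subst h2
  ext <;> simp only <;> field_simp
  · ring
  · ring
  · linear_combination e

/-- The hyperbolic cosine of the distance. -/
noncomputable def ch (P Q : V) : ℝ := -Bf P Q

@[simp] theorem ch_isom (f : Isom) (P Q : V) : ch (f • P) (f • Q) = ch P Q := by simp [ch]

theorem ch_comm (P Q : V) : ch P Q = ch Q P := by rw [ch, ch, Bf_comm]

theorem ch_o (P : V) : ch o P = (P.1 + P.2.2) / 2 := by simp only [ch, Bf, o]; ring

theorem one_le_ch {P Q : V} (hP : H2 P) (hQ : H2 Q) : 1 ≤ ch P Q := by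
  obtain ⟨f, hf⟩ := hP.exists_frame
  rw [← ch_isom f, hf, ch_o]
  have h := hQ.smul f
  nlinarith [h.eq, h.2, h.pos, sq_nonneg ((f • Q).1 - (f • Q).2.2), sq_nonneg (f • Q).2.1]

theorem eq_of_ch_le {P Q : V} (hP : H2 P) (hQ : H2 Q) (h1 : ch P Q ≤ 1) : P = Q := by
  obtain ⟨f, hf⟩ := hP.exists_frame
  rw [← ch_isom f, hf, ch_o] at h1
  have h := hQ.smul f
  have e := h.eq
  have a := h.2
  have c := h.pos
  refine smul_left_cancel f ?_
  rw [hf]
  generalize f • Q = R at *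
  obtain ⟨x, y, z⟩ := R
  simp only at *
  have h2 : (x - z) ^ 2 + 4 * y ^ 2 ≤ 0 := by nlinarith
  have h3 : x - z = 0 := by nlinarith [sq_nonneg (x - z), sq_nonneg y]
  have h4 : y = 0 := by nlinarith [sq_nonneg (x - z), sq_nonneg y]
  have h5 : x = 1 := by nlinarith
  rw [o, h4, h5, show z = 1 by linarith]

theorem ch_tri {P Q R : V} (hP : H2 P) (hQ : H2 Q) (hR : H2 R) :
    ch P R ≤ 2 * ch Q P * ch Q R := by
  obtain ⟨f, hf⟩ := hQ.exists_frame
  rw [← ch_isom f, ← ch_isom f Q, ← ch_isom f Q, hf, ch_o, ch_o]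
  have h := hP.smul f
  have h' := hR.smul f
  have := h.eq
  have := h'.eq
  have := h.2
  have := h'.2
  have := h.pos
  have := h'.pos
  generalize f • P = X at *
  generalize f • R = Y at *
  obtain ⟨x, y, z⟩ := X
  obtain ⟨x', y', z'⟩ := Y
  simp only [ch, Bf] at *
  have h1 : 4 * (y * y') ^ 2 ≤ (x * x' + z * z') ^ 2 := by
    have : (y * y') ^ 2 ≤ (x * x') * (z * z') := by nlinarith [sq_nonneg y, sq_nonneg y']
    nlinarith [sq_nonneg (x * x' - z * z')]
  have h2 : -(x * x' + z * z') ≤ 2 * (y * y') :=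
    (abs_le.1 (abs_le_of_sq_le_sq' (by nlinarith) (by positivity) |> abs_le.2)).1
  nlinarith

theorem cs_aux {x y t x' y' t' : ℝ} (h : x ^ 2 + y ^ 2 = 1 + t ^ 2) (h' : x' ^ 2 + y' ^ 2 = t' ^ 2 - 1)
    (ht : 0 ≤ t') : |x * x' + y * y'| ≤ (1 + |t|) * t' := by
  refine abs_le_of_sq_le_sq' ?_ (by positivity) |> abs_le.2
  have h1 : (x * x' + y * y') ^ 2 ≤ (x ^ 2 + y ^ 2) * (x' ^ 2 + y' ^ 2) := by
    nlinarith [sq_nonneg (x * y' - y * x')]
  rw [h, h'] at h1
  have h2 : 1 + t ^ 2 ≤ (1 + |t|) ^ 2 := by nlinarith [sq_abs t, abs_nonneg t]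
  have h3 : (1 + t ^ 2) * t' ^ 2 ≤ (1 + |t|) ^ 2 * t' ^ 2 := by gcongr
  nlinarith [sq_nonneg t]

theorem Bf_split {E P Q : V} (hE : Bf E E = 1) (hP : H2 P) (hQ : H2 Q) :
    |Bf E P - Bf E Q * ch Q P| ≤ (1 + |Bf E Q|) * ch Q P := by
  obtain ⟨f, hf⟩ := hQ.exists_frame
  rw [← ch_isom f, ← Bf_isom f E, ← Bf_isom f E, hf, ch_o]
  rw [← Bf_isom f] at hE
  have h := hP.smul f
  have e := h.eq
  have := h.2
  have := h.pos
  generalize f • P = X at *
  generalize f • E = Y at *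
  obtain ⟨x, y, z⟩ := X
  obtain ⟨a, b, c⟩ := Y
  simp only [Bf, o] at *
  have := cs_aux (x := (a - c) / 2) (y := b) (t := b * 0 - (a * 1 + 1 * c) / 2) (x' := (x - z) / 2)
    (y' := y) (t' := (x + z) / 2) (by linear_combination hE) (by linear_combination -e)
    (by positivity)
  refine le_of_eq_of_le (congrArg _ ?_) this
  ring

theorem abs_Bf_le {E P Q : V} (hE : Bf E E = 1) (hP : H2 P) (hQ : H2 Q) :
    |Bf E P| ≤ (1 + 2 * |Bf E Q|) * ch Q P := by
  have h := Bf_split hE hP hQ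
  have h1 := one_le_ch hQ hP
  have h2 := abs_add_le (Bf E P - Bf E Q * ch Q P) (Bf E Q * ch Q P)
  rw [sub_add_cancel, abs_mul, abs_of_pos (by linarith : 0 < ch Q P)] at h2
  linarith

theorem abs_Bf_le_of_sign {E P Q : V} (hE : Bf E E = 1) (hP : H2 P) (hQ : H2 Q)
    (h : Bf E P * Bf E Q ≤ 0) : |Bf E P| ≤ ch Q P := by
  have h0 := abs_le.1 (Bf_split hE hP hQ)
  have h1 := one_le_ch hQ hP
  rcases lt_trichotomy (Bf E Q) 0 with a | a | a
  · rw [abs_of_neg a] at h0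
    rw [abs_of_nonneg (by nlinarith)]
    linarith [h0.2]
  · rw [a] at h0
    rw [abs_le]
    constructor <;> simp at h0 <;> linarith [h0.1, h0.2]
  · rw [abs_of_pos a] at h0
    rw [abs_of_nonpos (by nlinarith)]
    linarith [h0.1]

/-- Future directed vectors. -/
def Fut (P : V) : Prop := ∀ Q, H2 Q → 0 < ch P Q

theorem H2.fut {P : V} (h : H2 P) : Fut P := fun _ hQ => one_pos.trans_le (one_le_ch h hQ)

theorem Fut.smul {P : V} (h : Fut P) (f : Isom) : Fut (f • P) := fun Q hQ => by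
  rw [← smul_inv_smul f Q, ch_isom]
  exact h _ (hQ.smul _)

theorem exists_H2_of_neg {X : V} (h : Bf X X < 0) : ∃ t : ℝ, t ≠ 0 ∧ H2 (t • X) := by
  have hs := Real.sqrt_pos.2 (neg_pos.2 h)
  have h2 := Real.mul_self_sqrt (neg_pos.2 h).le
  have h3 : Bf ((1 / √(-Bf X X)) • X) ((1 / √(-Bf X X)) • X) = -1 := by
    rw [Bf_smul_left, Bf_smul_right]
    field_simp
    linarith
  rcases H2_or h3 with a | a
  · exact ⟨_, by positivity, a⟩
  · exact ⟨-(1 / √(-Bf X X)), neg_ne_zero.2 (by positivity), by rwa [neg_smul]⟩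

/-- Two disjoint lines facing each other: the back sides do not meet. -/
theorem Bf_add_pos {E F P : V} (hE : Bf E E = 1) (hF : Bf F F = 1) (h : Bf E F < -1)
    (ho : 0 < Bf E o + Bf F o) (hP : Fut P) : 0 < Bf E P + Bf F P := by
  obtain ⟨t, -, ht⟩ := exists_H2_of_neg (X := E + F) (by simp [Bf_comm F E]; linarith)
  have h1 := hP _ ht
  have h2 := H2_o.fut _ ht
  simp only [ch, Bf_smul_left, Bf_add_left, Bf_comm o, Bf_comm P] at h1 h2
  have : t < 0 := by nlinarith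
  nlinarith

end Pool.Agent.MP_4a6971_al.H66
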