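import Pool.Agent.MP_4a6971_al.H66.Lor
import Pool.Agent.MP_4a6971_al.H66.Cox

/-!
The regular right-angled polygon.
-/

namespace Pool.Agent.MP_4a6971_al.H66

open Real

/-- The inward normals of a compact right-angled polygon with centre `o`. -/
structure Poly (g : ℕ) where
  hg : 2 ≤ g
  e : I g → V
  h : ℝ
  h_pos : 0 < h
  unit : ∀ i, Bf (e i) (e i) = 1
  adj : ∀ i, Bf (e i) (e (i + 1)) = 0
  far : ∀ i j, j ≠ i → j ≠ i + 1 → i ≠ j + 1 → Bf (e i) (e j) < -1
  cen : ∀ i, Bf (e i) o = h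
  bdd : ∃ R, ∀ P, H2 P → (∀ i, 0 ≤ Bf (e i) P) → ch o P ≤ R

variable {g : ℕ}

theorem angle_eq {θ : ℝ} (hθ : θ * (2 * g + 2) = 2 * π) {k : ℤ} {i : I g} (h : (k : I g) = i) :
    cos (k * θ) = cos (i.val * θ) ∧ sin (k * θ) = sin (i.val * θ) := by
  have h1 : ((2 * g + 2 : ℕ) : ℤ) ∣ k - i.val := by
    rw [← ZMod.intCast_zmod_eq_zero_iff_dvd]
    simp [h]
  obtain ⟨m, hm⟩ := h1
  have h2 : (k : ℝ) = i.val + (2 * g + 2) * m := by
    have : k = i.val + (2 * g + 2 : ℕ) * m := by linarith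
    rw [this]
    push_cast
    ring
  have h3 : k * θ = i.val * θ + m * (2 * π) := by rw [h2, ← hθ]; ring
  rw [h3, cos_add_int_mul_two_pi, sin_add_int_mul_two_pi]
  exact ⟨rfl, rfl⟩

theorem exists_poly (hg : 2 ≤ g) : Nonempty (Poly g) := by
  obtain ⟨θ, hθ⟩ : ∃ θ : ℝ, θ * (2 * g + 2) = 2 * π := ⟨2 * π / (2 * g + 2), by field_simp⟩
  have hg' : (2 : ℝ) ≤ g := by exact_mod_cast hg
  have hπ := pi_pos
  have θ0 : 0 < θ := by nlinarith
  have θ1 : θ ≤ π / 3 := by nlinarith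
  have c0 : 1 / 2 ≤ cos θ := by
    rw [← cos_pi_div_three]
    exact cos_le_cos_of_nonneg_of_le_pi θ0.le (by linarith) θ1
  have c1 : cos θ < 1 := by
    rw [← cos_zero]
    exact cos_lt_cos_of_nonneg_of_le_pi le_rfl (by linarith) θ0
  obtain ⟨r, r0, hr⟩ : ∃ r : ℝ, 0 < r ∧ r ^ 2 * (1 - cos θ) = 1 :=
    ⟨√(1 / (1 - cos θ)), sqrt_pos.2 (one_div_pos.2 (by linarith)), by
      rw [sq_sqrt (one_div_pos.2 (by linarith)).le]
      have : 1 - cos θ ≠ 0 := by linarith
      field_simp⟩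
  obtain ⟨h, h0, hh⟩ : ∃ h : ℝ, 0 < h ∧ h ^ 2 = r ^ 2 * cos θ :=
    ⟨√(r ^ 2 * cos θ), sqrt_pos.2 (by positivity), sq_sqrt (by positivity)⟩
  let e : I g → V := fun i => (-h - r * cos (i.val * θ), -r * sin (i.val * θ), -h + r * cos (i.val * θ))
  have hB : ∀ i j, Bf (e i) (e j) = r ^ 2 * cos ((i - j).val * θ) - h ^ 2 := fun i j => by
    rw [← (angle_eq hθ (k := i.val - j.val) (i := i - j) (by simp)).1]
    push_cast
    rw [sub_mul, cos_sub]
    simp only [e, Bf]
    ring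
  have hone : Fact (1 < 2 * g + 2) := ⟨by omega⟩
  refine ⟨⟨hg, e, h, h0, fun i => ?_, fun i => ?_, fun i j a b c => ?_, fun i => ?_, ?_⟩⟩
  · rw [hB, sub_self, ZMod.val_zero]
    simp
    linarith
  · rw [Bf_comm, hB, add_sub_cancel_left, ZMod.val_one]
    simp [hh]
  · rw [hB]
    have v0 : (i - j).val ≠ 0 := fun h => a (sub_eq_zero.1 ((ZMod.val_eq_zero _).1 h)).symm
    have v1 : (i - j).val ≠ 1 := fun h => c (by
      have := (ZMod.val_eq_one (by omega) _).1 h
      linear_combination this)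
    have v2 : (i - j).val + 1 ≠ 2 * g + 2 := fun h => b (by
      have h1 : (((i - j).val + 1 : ℕ) : I g) = 0 := by rw [h]; exact ZMod.natCast_self _
      push_cast at h1
      rw [ZMod.natCast_zmod_val] at h1
      linear_combination -h1)
    have v3 := ZMod.val_lt (i - j)
    have w1 : (2 : ℝ) ≤ (i - j).val := by exact_mod_cast (by omega : 2 ≤ (i - j).val)
    have w2 : ((i - j).val : ℝ) ≤ 2 * g := by exact_mod_cast (by omega : (i - j).val ≤ 2 * g)
    have : cos ((i - j).val * θ) ≤ cos (2 * θ) := by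
      rcases le_total ((i - j).val * θ) π with x | x
      · exact cos_le_cos_of_nonneg_of_le_pi (by linarith) x (mul_le_mul_of_nonneg_right w1 θ0.le)
      · rw [← cos_two_pi_sub]
        exact cos_le_cos_of_nonneg_of_le_pi (by linarith only [θ0]) (by linarith only [x])
          (by linarith only [hθ, mul_le_mul_of_nonneg_right w2 θ0.le])
    rw [cos_two_mul] at this
    have h3 : r ^ 2 * cos ((i - j).val * θ) ≤ r ^ 2 * (2 * cos θ ^ 2 - 1) := by gcongr
    have h4 : r ^ 2 * (2 * cos θ ^ 2 - 1) - h ^ 2 = -(2 * cos θ + 1) := by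
      linear_combination -hh - (2 * cos θ + 1) * hr
    linarith
  · simp only [e, Bf, o]
    ring
  · have s0 : 0 < sin θ := sin_pos_of_pos_of_lt_pi θ0 (by linarith)
    refine ⟨(1 + cos θ) / (1 - cos θ), fun P hP hi => ?_⟩
    obtain ⟨x, y, t, rfl⟩ : ∃ x y t : ℝ, P = (t + x, y, t - x) :=
      ⟨(P.1 - P.2.2) / 2, P.2.1, (P.1 + P.2.2) / 2, by ext <;> simp <;> ring⟩
    have e1 := hP.eq
    have e2 := hP.2
    have e3 := hP.pos
    simp only at e1 e2 e3
    obtain ⟨i, hmax⟩ := Finite.exists_max fun i : I g => x * cos (i.val * θ) + y * sin (i.val * θ)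
    have p := angle_eq hθ (k := i.val + 1) (i := i + 1) (by simp)
    have m := angle_eq hθ (k := i.val - 1) (i := i - 1) (by simp)
    have q1 := hmax (i + 1)
    have q2 := hmax (i - 1)
    rw [← p.1, ← p.2] at q1
    rw [← m.1, ← m.2] at q2
    push_cast at q1 q2
    rw [add_mul, one_mul, cos_add, sin_add] at q1
    rw [sub_mul, one_mul, cos_sub, sin_sub] at q2
    have q3 := hi i
    simp only [e, Bf] at q3
    have q4 := cos_sq_add_sin_sq (i.val * θ)
    have q5 := cos_sq_add_sin_sq θ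
    rw [ch_o]
    simp only
    generalize cos (i.val * θ) = C at *
    generalize sin (i.val * θ) = S at *
    generalize cos θ = c at *
    generalize sin θ = σ at *
    obtain ⟨a, ha⟩ : ∃ a, a = x * C + y * S := ⟨_, rfl⟩
    obtain ⟨b, hb⟩ : ∃ b, b = y * C - x * S := ⟨_, rfl⟩
    have t0 : 0 < t := by linarith only [e2, e3]
    have k1 : σ * b ≤ (1 - c) * a := by rw [ha, hb]; linarith only [q1]
    have k2 : -((1 - c) * a) ≤ σ * b := by rw [ha, hb]; linarith only [q2]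
    have k3 : r * a ≤ h * t := by rw [ha]; linarith only [q3]
    have k4 : a ^ 2 + b ^ 2 = t ^ 2 - 1 := by
      rw [ha, hb]; linear_combination (x ^ 2 + y ^ 2) * q4 - e1
    have a0 : 0 ≤ a :=
      le_of_mul_le_mul_left (a := 1 - c) (by linarith only [k1, k2]) (by linarith only [c1])
    have k5 : (σ * b) ^ 2 ≤ ((1 - c) * a) ^ 2 := sq_le_sq' k2 k1
    have k6 : (1 + c) * b ^ 2 ≤ (1 - c) * a ^ 2 := by
      have : (1 - c) * ((1 + c) * b ^ 2) ≤ (1 - c) * ((1 - c) * a ^ 2) := by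
        have : σ ^ 2 * b ^ 2 = (1 - c) * (1 + c) * b ^ 2 := by
          linear_combination b ^ 2 * q5
        linarith only [this, k5]
      exact le_of_mul_le_mul_left this (by linarith)
    have k7 : (r * a) ^ 2 ≤ (h * t) ^ 2 := by gcongr
    have k8 : a ^ 2 ≤ c * t ^ 2 := by
      have : r ^ 2 * a ^ 2 ≤ r ^ 2 * (c * t ^ 2) := by
        have : h ^ 2 * t ^ 2 = r ^ 2 * c * t ^ 2 := by rw [hh]
        linarith only [this, k7]
      exact le_of_mul_le_mul_left this (by positivity)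
    have k9 : (1 - c) * t ^ 2 ≤ 1 + c := by
      have : (1 + c) * (a ^ 2 + b ^ 2) = (1 + c) * (t ^ 2 - 1) := by rw [k4]
      linarith only [this, k6, k8]
    have t1 : 1 ≤ t :=
      (one_le_sq_iff₀ t0.le).1 (by linarith only [k4, sq_nonneg a, sq_nonneg b])
    rw [le_div_iff₀ (by linarith only [c1])]
    linarith only [k9, mul_le_mul_of_nonneg_left (le_self_pow₀ t1 two_ne_zero) (sub_pos.2 c1).le]

end Pool.Agent.MP_4a6971_al.H66
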