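import Pool.Agent.MP_4a6971_al.H66.Poly

/-!
The reflection representation: the polygon is a fundamental domain.
-/

namespace Pool.Agent.MP_4a6971_al.H66

variable {g : ℕ}

theorem exists_refl {E : V} (hE : Bf E E = 1) : ∃ f : Isom,
    (∀ X, f • X = X - (2 * Bf E X) • E) ∧ ∀ X, f • X = act (-E.2.1) (-E.2.2) E.1 E.2.1 X := by
  have h : E.2.1 * E.2.1 - E.1 * E.2.2 = 1 := by
    simp only [Bf] at hE
    linarith
  obtain ⟨f, hf⟩ := exists_isom (α := -E.2.1) (β := -E.2.2) (γ := E.1) (δ := E.2.1)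
    (by linear_combination (E.2.1 * E.2.1 - E.1 * E.2.2 + 1) * h)
  refine ⟨f, fun X => ?_, hf⟩
  rw [hf, act_apply]
  ext <;> simp only [Bf, Prod.fst_sub, Prod.snd_sub, Prod.smul_fst, Prod.smul_snd, smul_eq_mul]
  · linear_combination X.1 * h
  · linear_combination X.2.1 * h
  · linear_combination X.2.2 * h

theorem natCast_ne_zero {m : ℕ} (h0 : 0 < m) (h : m < 2 * g + 2) : (m : I g) ≠ 0 := fun h1 =>
  absurd (Nat.le_of_dvd h0 ((ZMod.natCast_eq_zero_iff _ _).1 h1)) (by omega)

/-- The sign character. -/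
def sg (g : ℕ) : W g →* ℤˣ := liftW (fun _ => -1) (fun _ => by simp) fun _ => rfl

@[simp] theorem sg_s (i : I g) : sg g (s i) = -1 := liftW_s _ _ _ i

theorem sg_eq (w : W g) :
    sg g w = if (cls g w).toAdd.1 + (cls g w).toAdd.2 = 0 then 1 else -1 := by
  induction w using W_ind_left with
  | one => simp
  | step i w ih =>
    rw [map_mul, map_mul, ih, sg_s, cls_s, toAdd_mul, toAdd_ofAdd, Prod.fst_add, Prod.snd_add]
    simp only
    generalize par i = a
    generalize (cls g w).toAdd.1 = b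
    generalize (cls g w).toAdd.2 = c
    revert a b c
    decide

theorem sg_gam (x : Gam g) : sg g x = 1 := by
  rw [sg_eq, show cls g x = 1 from x.2]
  simp

theorem eq_of_conj_s {i j : I g} {w : W g} (h : w * s i * w⁻¹ = s j) : i = j := by
  let φ : W g →* ℤˣ := liftW (fun k => if k = i then -1 else 1)
    (fun k => by split_ifs <;> simp) fun _ => mul_comm _ _
  have := congrArg φ h
  rw [map_mul, map_mul, map_inv, mul_inv_cancel_comm, liftW_s, liftW_s, if_pos rfl] at this
  by_contra hc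
  rw [if_neg (Ne.symm hc)] at this
  exact absurd this (by decide)

/-- The translation along the `i`-th wall. -/
def tr (i : I g) : W g := s (i - 1) * s (i + 1)

theorem s_comm' (i : I g) : s i * s (i - 1) = s (i - 1) * s i := by
  have := (s_comm (i - 1)).symm
  rwa [sub_add_cancel] at this

theorem s_tr (i : I g) : s i * tr i = tr i * s i := by
  rw [tr, ← mul_assoc, s_comm', mul_assoc, s_comm, mul_assoc]

theorem s_tr' (i : I g) : s (i + 1) * tr i = (tr i)⁻¹ * s (i + 1) := by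
  simp [tr, mul_assoc]

theorem par_succ (i : I g) : par (i + 1) = par i + 1 := by simp

theorem tr_mem (i : I g) : tr i ∈ (cls g).ker := by
  rw [MonoidHom.mem_ker, tr, map_mul, cls_s, cls_s, map_sub, map_add, map_one, ← ofAdd_add]
  generalize par i = a
  revert a
  decide

namespace Poly

variable (Y : Poly g)

/-- The reflections in the sides. -/
noncomputable def r (i : I g) : Isom := (exists_refl (Y.unit i)).choose

theorem r_smul (i : I g) (X : V) : Y.r i • X = X - (2 * Bf (Y.e i) X) • Y.e i :=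
  (exists_refl (Y.unit i)).choose_spec.1 X

/-- The reflection representation. -/
noncomputable def ρ : W g →* Isom :=
  liftW Y.r (fun i => isom_ext fun X => by
      rw [mul_smul, r_smul, r_smul]
      simp only [Bf_sub_right, Bf_smul_right, Y.unit i, one_smul]
      module)
    fun i => isom_ext fun X => by
      simp only [mul_smul, r_smul, Bf_sub_right, Bf_smul_right, Y.adj i, Bf_comm (Y.e (i + 1)) (Y.e i),
        mul_zero, sub_zero]
      abel

theorem ρ_s (i : I g) (X : V) : Y.ρ (s i) • X = X - (2 * Bf (Y.e i) X) • Y.e i := by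
  rw [ρ, liftW_s, r_smul]

theorem ρ_s_e (i : I g) : Y.ρ (s i) • Y.e i = -Y.e i := by
  rw [ρ_s, Y.unit, mul_one, two_smul]
  abel

theorem ρ_s_of {i : I g} {X : V} (h : Bf (Y.e i) X = 0) : Y.ρ (s i) • X = X := by
  simp [ρ_s, h]

theorem adj' (i : I g) : Bf (Y.e i) (Y.e (i - 1)) = 0 := by
  simpa [Bf_comm] using Y.adj (i - 1)

theorem ρ_tr (i : I g) : Y.ρ (tr i) • Y.e i = Y.e i := by
  rw [tr, map_mul, mul_smul, Y.ρ_s_of (i := i + 1) (by rw [Bf_comm, Y.adj]),
    Y.ρ_s_of (by rw [Bf_comm, Y.adj'])]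

theorem exists_lift (w : W g) : ∃ α β γ δ : ℝ, α * δ - β * γ = ((sg g w : ℤ) : ℝ) ∧
    ∀ X, Y.ρ w • X = act α β γ δ X := by
  induction w using W_ind_left with
  | one => exact ⟨1, 0, 0, 1, by simp, fun X => by simp [act_apply]⟩
  | step i w ih =>
    obtain ⟨α, β, γ, δ, h1, h2⟩ := ih
    have h3 := (exists_refl (Y.unit i)).choose_spec.2
    have h4 := Y.unit i
    refine ⟨_, _, _, _, ?_, fun X => by
      rw [map_mul, mul_smul, h2, ρ, liftW_s, r, h3, act_act]⟩
    simp only [Bf] at h4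
    rw [map_mul, sg_s]
    push_cast
    rw [← h1]
    linear_combination -(α * δ - β * γ) * h4

theorem add_pos {i j : I g} (a : j ≠ i) (b : j ≠ i + 1) (c : i ≠ j + 1) {P : V} (hP : Fut P) :
    0 < Bf (Y.e i) P + Bf (Y.e j) P :=
  Bf_add_pos (Y.unit i) (Y.unit j) (Y.far i j a b c) (by rw [Y.cen, Y.cen]; linarith [Y.h_pos]) hP

/-- The closed polygon. -/
def Ch (P : V) : Prop := H2 P ∧ ∀ i, 0 ≤ Bf (Y.e i) P

theorem Ch_o : Y.Ch o := ⟨H2_o, fun i => by rw [Y.cen]; exact Y.h_pos.le⟩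

theorem tits (w : W g) (i : I g) (h : (cs g).length w < (cs g).length (w * s i)) :
    (∀ P, Y.Ch P → 0 ≤ Bf (Y.ρ w • Y.e i) P) ∧ Y.h ≤ Bf (Y.ρ w • Y.e i) o := by
  induction hn : (cs g).length w using Nat.strong_induction_on generalizing w i with
  | _ n ih =>
  by_cases h1 : w = 1
  · subst h1
    simp only [map_one, one_smul]
    exact ⟨fun P hP => hP.2 i, (Y.cen i).ge⟩
  obtain ⟨j, hj⟩ := (cs g).exists_rightDescent_of_ne_one h1
  obtain ⟨v, rfl⟩ : ∃ v, w = v * s j := ⟨w * s j, by simp [mul_assoc]⟩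
  have hj' : (cs g).length v < (cs g).length (v * s j) := by
    have : (cs g).length (v * s j * s j) < _ := hj
    simpa [mul_assoc] using this
  have hij : j ≠ i := by
    rintro rfl
    rw [mul_assoc, s_mul_s, mul_one] at h
    omega
  by_cases h2 : j = i + 1 ∨ i = j + 1
  · have c1 : s j * s i = s i * s j := by
      rcases h2 with rfl | rfl
      · exact (s_comm i).symm
      · exact s_comm j
    have c2 : Bf (Y.e j) (Y.e i) = 0 := by
      rcases h2 with rfl | rfl
      · rw [Bf_comm, Y.adj]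
      · exact Y.adj j
    rw [map_mul, mul_smul, Y.ρ_s_of c2]
    refine ih _ (hn ▸ hj') v i ?_ rfl
    rw [mul_assoc, c1, ← mul_assoc] at h
    have a1 : (cs g).length (v * s i * s j) = _ ∨ _ := (cs g).length_mul_simple (v * s i) j
    have a2 : (cs g).length (v * s i) = _ ∨ _ := (cs g).length_mul_simple v i
    change _ ∨ (cs g).length (v * s i * s j) + 1 = _ at a1
    change _ ∨ (cs g).length (v * s i) + 1 = _ at a2
    omega
  · push Not at h2
    obtain ⟨p1, p2⟩ := ih _ (hn ▸ hj') v j hj' rfl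
    have f := Y.far i j hij h2.1 h2.2
    have key : ∀ P, H2 P → Bf (Y.ρ (v * s j) • Y.e i) P > (-2 * Bf (Y.e i) (Y.e j) - 1) *
        Bf (Y.ρ v • Y.e j) P := fun P hP => by
      have := Y.add_pos hij h2.1 h2.2 (hP.smul (Y.ρ v)⁻¹).fut
      rw [map_mul, mul_smul, Bf_move, Bf_move (Y.ρ v), ρ_s, Bf_sub_left, Bf_smul_left,
        Bf_comm (Y.e j) (Y.e i)]
      linarith
    refine ⟨fun P hP => ?_, ?_⟩
    · nlinarith [key P hP.1, p1 P hP]
    · nlinarith [key o H2_o, Y.h_pos]

theorem len_le (w : W g) : 1 + 2 * Y.h ^ 2 * (cs g).length w ≤ ch o (Y.ρ w • o) := by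
  induction hn : (cs g).length w using Nat.strong_induction_on generalizing w with
  | _ n ih =>
  by_cases h1 : w = 1
  · subst h1
    rw [← hn]
    simp [ch, H2_o.1]
  obtain ⟨j, hj⟩ := (cs g).exists_rightDescent_of_ne_one h1
  obtain ⟨v, rfl⟩ : ∃ v, w = v * s j := ⟨w * s j, by simp [mul_assoc]⟩
  have hj' : (cs g).length v < (cs g).length (v * s j) := by
    have : (cs g).length (v * s j * s j) < _ := hj
    simpa [mul_assoc] using this
  have a := ih _ (hn ▸ hj') v rfl
  have b := (Y.tits v j hj').2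
  have c : (cs g).length (v * s j) = _ ∨ _ := (cs g).length_mul_simple v j
  change _ ∨ (cs g).length (v * s j) + 1 = _ at c
  have d : (n : ℝ) = (cs g).length v + 1 := by exact_mod_cast (by omega : n = (cs g).length v + 1)
  rw [map_mul, mul_smul, ρ_s, smul_sub, isom_smul, ch, Bf_sub_right, Bf_smul_right, Y.cen,
    Bf_comm o (_ • Y.e j), d]
  rw [ch] at a
  nlinarith [Y.h_pos]

theorem proper_o (R : ℝ) : {w | ch o (Y.ρ w • o) ≤ R}.Finite := by
  obtain ⟨n, hn⟩ := exists_nat_ge (R / (2 * Y.h ^ 2))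
  have h0 := Y.h_pos
  rw [div_le_iff₀ (by positivity)] at hn
  refine ((List.finite_length_le (I g) n).image (cs g).wordProd).subset fun w hw => ?_
  obtain ⟨ω, h1, rfl⟩ := (cs g).exists_isReduced w
  refine ⟨ω, ?_, rfl⟩
  have a := (Y.len_le _).trans hw
  rw [h1.eq] at a
  have : (ω.length : ℝ) ≤ n := by
    by_contra! hc
    nlinarith [mul_pos (by positivity : 0 < 2 * Y.h ^ 2) (sub_pos.2 hc)]
  exact_mod_cast this

theorem proper {P Q : V} (hP : H2 P) (hQ : H2 Q) (R : ℝ) : {w | ch P (Y.ρ w • Q) ≤ R}.Finite := by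
  refine (Y.proper_o (2 * ch P o * (2 * R * ch Q o))).subset fun w hw => ?_
  replace hw : ch P (Y.ρ w • Q) ≤ R := hw
  refine (ch_tri H2_o hP (H2_o.smul _)).trans ?_
  have a := one_le_ch hP H2_o
  have b := one_le_ch hQ H2_o
  gcongr
  refine (ch_tri hP (hQ.smul (Y.ρ w)) (H2_o.smul _)).trans ?_
  rw [ch_isom, ch_comm]
  gcongr

theorem faithful {w : W g} (h : Y.ρ w • o = o) : w = 1 := by
  have a := Y.len_le w
  rw [h, ch_o] at a
  simp only [o] at a
  have h0 := Y.h_pos
  have : ((cs g).length w : ℝ) ≤ 0 := by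
    by_contra! hc
    nlinarith [mul_pos (by positivity : 0 < 2 * Y.h ^ 2) hc]
  exact (cs g).length_eq_zero_iff.1 (by exact_mod_cast le_antisymm this (Nat.cast_nonneg _))

theorem ρ_inj : Function.Injective Y.ρ :=
  (injective_iff_map_eq_one _).2 fun _ h => Y.faithful (by rw [h, one_smul])

theorem cover {P : V} (hP : H2 P) : ∃ w, Y.Ch (Y.ρ w • P) := by
  obtain ⟨w, h1, h2⟩ := Set.exists_min_image _ (fun w => ch o (Y.ρ w • P))
    (Y.proper H2_o hP (ch o P)) ⟨1, by simp⟩
  refine ⟨w, hP.smul _, fun i => ?_⟩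
  by_contra! hc
  have e : ch o (Y.ρ (s i * w) • P) = ch o (Y.ρ w • P) + 2 * Bf (Y.e i) (Y.ρ w • P) * Y.h := by
    rw [map_mul, mul_smul, ρ_s, ch, ch, Bf_sub_right, Bf_smul_right, Bf_comm o (Y.e i), Y.cen]
    ring
  have a := mul_neg_of_neg_of_pos hc Y.h_pos
  have b : ch o (Y.ρ w • P) ≤ ch o P := h1
  have := h2 (s i * w) (show ch o (Y.ρ (s i * w) • P) ≤ ch o P by linarith)
  linarith

theorem stab_ind {p : W g → Prop} {P : V} (hP : Y.Ch P) (one : p 1)
    (step : ∀ v j, Bf (Y.e j) P = 0 → p v → p (v * s j)) (w : W g) (h : Y.Ch (Y.ρ w • P)) :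
    p w := by
  induction hn : (cs g).length w using Nat.strong_induction_on generalizing w with
  | _ n ih =>
  by_cases h1 : w = 1
  · exact h1 ▸ one
  obtain ⟨j, hj⟩ := (cs g).exists_rightDescent_of_ne_one h1
  obtain ⟨v, rfl⟩ : ∃ v, w = v * s j := ⟨w * s j, by simp [mul_assoc]⟩
  have hj' : (cs g).length v < (cs g).length (v * s j) := by
    have : (cs g).length (v * s j * s j) < _ := hj
    simpa [mul_assoc] using this
  have a := (Y.tits v j hj').1 _ h
  rw [map_mul, mul_smul, Bf_isom, ρ_s, Bf_sub_right, Bf_smul_right, Y.unit] at a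
  have b : Bf (Y.e j) P = 0 := le_antisymm (by linarith) (hP.2 j)
  refine step v j b (ih _ (hn ▸ hj') v ?_ rfl)
  rwa [map_mul, mul_smul, Y.ρ_s_of b] at h

theorem stab {P : V} (hP : Y.Ch P) : ∃ k : I g, ∀ w, Y.ρ w • P = P →
    w = 1 ∨ w = s k ∨ w = s (k + 1) ∨ w = s k * s (k + 1) := by
  have hg := Y.hg
  have n2 : (2 : I g) ≠ 0 := by exact_mod_cast natCast_ne_zero (g := g) (m := 2) (by omega) (by omega)
  have n3 : (3 : I g) ≠ 0 := by exact_mod_cast natCast_ne_zero (g := g) (m := 3) (by omega) (by omega)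
  have adj : ∀ i j, Bf (Y.e i) P = 0 → Bf (Y.e j) P = 0 → j = i ∨ j = i + 1 ∨ i = j + 1 := by
    intro i j a b
    by_contra! hc
    have := Y.add_pos hc.1 hc.2.1 hc.2.2 hP.1.fut
    linarith
  obtain ⟨k, hk⟩ : ∃ k : I g, ∀ j, Bf (Y.e j) P = 0 → j = k ∨ j = k + 1 := by
    by_cases h0 : ∃ i, Bf (Y.e i) P = 0
    · obtain ⟨i, hi⟩ := h0
      by_cases h1 : Bf (Y.e (i - 1)) P = 0
      · refine ⟨i - 1, fun j hj => ?_⟩
        rcases adj i j hi hj with a | a | a
        · exact Or.inr (by linear_combination a)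
        · rcases adj (i - 1) j h1 hj with b | b | b
          · exact Or.inl b
          · exact Or.inr b
          · exact (n3 (by linear_combination -a - b)).elim
        · exact Or.inl (by linear_combination -a)
      · refine ⟨i, fun j hj => ?_⟩
        rcases adj i j hi hj with a | a | a
        · exact Or.inl a
        · exact Or.inr a
        · exact (h1 (by rwa [a, add_sub_cancel_right])).elim
    · exact ⟨0, fun j hj => (h0 ⟨j, hj⟩).elim⟩
  refine ⟨k, fun w hw => Y.stab_ind (p := fun w => w = 1 ∨ w = s k ∨ w = s (k + 1) ∨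
    w = s k * s (k + 1)) hP (Or.inl rfl) ?_ w (by rwa [hw])⟩
  intro v j hj hv
  have c := s_comm k
  rcases hk j hj with rfl | rfl <;> rcases hv with rfl | rfl | rfl | rfl
  · simp
  · simp
  · simp [c]
  · simp [c, mul_assoc]
  · simp
  · simp
  · simp
  · simp [mul_assoc]

theorem free {x : W g} (hx : x ∈ (cls g).ker) {P : V} (hP : H2 P) (h : Y.ρ x • P = P) : x = 1 := by
  obtain ⟨w, hw⟩ := Y.cover hP
  obtain ⟨k, hk⟩ := Y.stab hw
  have a : cls g (w * x * w⁻¹) = 1 := (MonoidHom.normal_ker _).conj_mem x hx w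
  rcases hk (w * x * w⁻¹) (by simp [mul_smul, h]) with b | b | b | b
  · simpa using b
  all_goals
    exfalso
    rw [b] at a
    simp only [map_mul, cls_s, par_succ, ← ofAdd_add] at a
    revert a
    generalize par k = z
    revert z
    decide

theorem wall_stab {i : I g} (w : W g) (h : Y.ρ w • Y.e i = Y.e i ∨ Y.ρ w • Y.e i = -Y.e i) :
    ∃ k : ℤ, w = tr i ^ k ∨ w = tr i ^ k * s i ∨ w = tr i ^ k * s (i + 1) ∨
      w = tr i ^ k * (s i * s (i + 1)) := by
  have h0 := Y.h_pos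
  obtain ⟨t, -, ht⟩ := exists_H2_of_neg (X := o - Y.h • Y.e i) (by
    simp only [Bf_sub_left, Bf_sub_right, Bf_smul_left, Bf_smul_right, Bf_comm o (Y.e i), Y.cen,
      Y.unit, H2_o.1]
    nlinarith)
  have t0 : 0 < t := by
    have := H2_o.fut _ ht
    simp only [ch, Bf_sub_right, Bf_smul_right, Bf_comm o (Y.e i), Y.cen, H2_o.1] at this
    by_contra! hc
    nlinarith [mul_nonneg (neg_nonneg.2 hc) (by positivity : 0 ≤ 1 + Y.h * Y.h)]
  have p0 : Bf (Y.e i) (t • (o - Y.h • Y.e i)) = 0 := by simp [Y.cen, Y.unit]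
  have hp : Y.Ch (t • (o - Y.h • Y.e i)) := ⟨ht, fun j => by
    simp only [Bf_sub_right, Bf_smul_right, Y.cen]
    have : Bf (Y.e j) (Y.e i) ≤ 1 := by
      by_cases a : i = j
      · rw [a, Y.unit]
      by_cases b : i = j + 1
      · rw [b, Y.adj]; norm_num
      by_cases c : j = i + 1
      · rw [c, Bf_comm, Y.adj]; norm_num
      linarith [Y.far j i a b c]
    exact mul_nonneg t0.le (by nlinarith)⟩
  generalize t • (o - Y.h • Y.e i) = p at *
  induction hn : (cs g).length w using Nat.strong_induction_on generalizing w with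
  | _ n ih =>
  by_cases h1 : w = 1
  · exact ⟨0, Or.inl (by simpa using h1)⟩
  obtain ⟨j, hj⟩ := (cs g).exists_rightDescent_of_ne_one h1
  obtain ⟨v, rfl⟩ : ∃ v, w = v * s j := ⟨w * s j, by simp [mul_assoc]⟩
  have hj' : (cs g).length v < (cs g).length (v * s j) := by
    have : (cs g).length (v * s j * s j) < _ := hj
    simpa [mul_assoc] using this
  have a := (Y.tits v j hj').1 _ hp
  have hj3 : j = i ∨ j = i + 1 ∨ i = j + 1 := by
    by_contra! hc
    have b := Y.add_pos hc.1 hc.2.1 hc.2.2 (hp.1.smul (Y.ρ (v * s j))⁻¹).fut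
    rw [← Bf_move, ← Bf_move, map_mul (Y.ρ) v, mul_smul _ _ (Y.e j), ρ_s_e, smul_neg, Bf_neg_left,
      ← map_mul] at b
    rcases h with h | h <;> rw [h] at b
    · linarith
    · rw [Bf_neg_left] at b
      linarith
  have hv : Y.ρ v • Y.e i = Y.e i ∨ Y.ρ v • Y.e i = -Y.e i := by
    rw [map_mul, mul_smul] at h
    rcases hj3 with rfl | rfl | rfl
    · rw [ρ_s_e, smul_neg, neg_eq_iff_eq_neg, neg_inj] at h
      exact h.symm
    · rwa [Y.ρ_s_of (by rw [Bf_comm, Y.adj])] at h
    · rwa [Y.ρ_s_of (Y.adj _)] at h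
  obtain ⟨k, hk⟩ := ih _ (hn ▸ hj') v hv rfl
  have c := s_comm i
  rcases hj3 with rfl | rfl | hi
  · refine ⟨k, ?_⟩
    rcases hk with rfl | rfl | rfl | rfl <;> simp [mul_assoc, c]
  · refine ⟨k, ?_⟩
    rcases hk with rfl | rfl | rfl | rfl <;> simp [mul_assoc]
  · have e : s j = tr i * s (i + 1) := by
      rw [tr, mul_assoc, s_mul_s, mul_one, hi, add_sub_cancel_right]
    have c1 := s_tr i
    have c2 := s_tr' i
    have c3 : s i * (tr i)⁻¹ = (tr i)⁻¹ * s i := (Commute.inv_right c1).eq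
    rw [e]
    rcases hk with rfl | rfl | rfl | rfl
    · exact ⟨k + 1, Or.inr (Or.inr (Or.inl (by rw [zpow_add_one, mul_assoc])))⟩
    · refine ⟨k + 1, Or.inr (Or.inr (Or.inr ?_))⟩
      rw [zpow_add_one, mul_assoc, mul_assoc, ← mul_assoc (s i), c1, mul_assoc]
    · refine ⟨k - 1, Or.inl ?_⟩
      rw [zpow_sub_one, mul_assoc, ← mul_assoc (s _), c2, mul_assoc, s_mul_s, mul_one]
    · refine ⟨k - 1, Or.inr (Or.inl ?_)⟩
      rw [zpow_sub_one, mul_assoc, mul_assoc, ← mul_assoc (s (i + 1)), c2, mul_assoc (tr i)⁻¹,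
        s_mul_s, mul_one, c3, mul_assoc]

end Poly

end Pool.Agent.MP_4a6971_al.H66
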